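import Pool.Agent.L0h11.FP.Stm

/-!
# FP/SPR: sparse polynomials divisible by a power of `X - 1`
-/

set_option autoImplicit false
set_option linter.all false

namespace Pool.Agent.L0h78.FP

open Polynomial Finset Pool.Agent.L0h11.FP

theorem SPR : St_SPR := by
  intro k _ _ N
  induction N with
  | zero =>
    intro g _ hg
    rw [Nat.le_zero, Finset.card_eq_zero, Polynomial.support_eq_empty] at hg
    exact hg
  | succ N ih =>
    intro g hdvd hg
    by_contra hg0
    have hne : g.support.Nonempty := Polynomial.support_nonempty.2 hg0
    obtain ⟨a, ha⟩ := hne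
    have hcoeff : ∀ n : ℕ, (X * derivative g - C (a : k) * g).coeff n = ((n : k) - a) * g.coeff n := by
      intro n
      rw [coeff_sub, coeff_C_mul]
      rcases n with _ | n
      · rw [coeff_X_mul_zero]
        simp
      · rw [coeff_X_mul, coeff_derivative]
        push_cast
        ring
    have h0 : X * derivative g - C (a : k) * g = 0 := by
      apply ih
      · refine dvd_sub (Dvd.dvd.mul_left ?_ _) (Dvd.dvd.mul_left ?_ _)
        · have := Polynomial.pow_sub_one_dvd_derivative_of_pow_dvd hdvd
          simpa using this
        · exact (pow_dvd_pow _ (Nat.le_succ N)).trans hdvd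
      · have hsub : (X * derivative g - C (a : k) * g).support ⊆ g.support.erase a := by
          intro n hn
          rw [mem_support_iff, hcoeff] at hn
          rw [Finset.mem_erase, mem_support_iff]
          refine ⟨?_, right_ne_zero_of_mul hn⟩
          rintro rfl
          exact left_ne_zero_of_mul hn (sub_self _)
        have h1 := Finset.card_le_card hsub
        rw [Finset.card_erase_of_mem ha] at h1
        omega
    have h1 : ∀ n : ℕ, n ≠ a → g.coeff n = 0 := by
      intro n hn
      have h2 := hcoeff n
      rw [h0, coeff_zero] at h2
      rcases mul_eq_zero.1 h2.symm with h3 | h3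
      · exfalso
        apply hn
        have : (n : k) = a := sub_eq_zero.1 h3
        exact_mod_cast this
      · exact h3
    have h2 : g = C (g.coeff a) * X ^ a := by
      ext n
      rw [coeff_C_mul, coeff_X_pow]
      split_ifs with h
      · rw [h, mul_one]
      · rw [mul_zero]
        exact h1 n h
    have h3 : (X - C 1) ∣ g := (dvd_pow_self _ (Nat.succ_ne_zero N)).trans hdvd
    rw [Polynomial.dvd_iff_isRoot] at h3
    have h4 : g.eval 1 = 0 := h3
    rw [h2] at h4
    simp at h4
    exact (mem_support_iff.1 ha) h4

end Pool.Agent.L0h78.FP
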